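import Mathlib
import Pool.Agent.helper72.TorusDefs
import Pool.Agent.helper68.AM.FinalX
import Pool.Agent.helper68.AM.FinalX2

/-!
The square-root law for the `k`-th geodesic length in the mapping class orbit holds, for EVERY
hyperbolic metric on the one-holed torus, for infinitely many types of FILLING curves: the curves
`a^n₁ b^m₁ a^-n₂ b^-m₂` such that `n₁ + n₂ - 2` and `m₁ + m₂ - 2` are positive and in proportion
`1 : 1`, `2 : 1` or `1 : 2`, and the curves `a³ b²`, `a⁴ b²`, `a⁶ b²`.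

Sketch of the proof. The trace of `A^n₁ B^m₁ A^-n₂ B^-m₂` is negative and comparable, uniformly over all
images `(A, B)` of `(a, b)` under the mapping class group, with `λ^(n₁+n₂-2) μ^(m₁+m₂-2)`, where `λ`, `μ`
are the large eigenvalues of `A`, `B`. So the length is `(n₁+n₂-2) ℓ(A) + (m₁+m₂-2) ℓ(B)` up to a constant;
that of `A³ B²` is `ℓ(A²B) + ℓ(AB)`, those of `A⁴ B²`, `A⁶ B²` are `2 max (ℓ(A), ℓ(A²B))` and
`2 max (2 ℓ(A), ℓ(A³B))`, up to a constant. The pairs `(A, B)` are the nodes of the Farey tree (with quarter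
turns), and a node whose weight is at most `R` corresponds to a simple curve (a mediant) whose length is at most
a fixed multiple of `R`, up to a constant. The simple curves are counted by the theorem for every metric
(`AM.tot`).
-/

set_option autoImplicit false

namespace Pool.Agent.Results.MP_d52931_gt.FillingFamilies

open Pool.Agent.helper72.Sq

/-- For every point of Fricke space and the holonomy `ρ` of the metric, let `g` be a curve
`a^n₁ b^m₁ a^-n₂ b^-m₂` with `n₁, m₁, n₂, m₂ ≥ 1` such that `p = n₁ + n₂ - 2 ≥ 1` and `q = m₁ + m₂ - 2 ≥ 1` satisfy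
`p = q`, `p = 2q` or `q = 2p`, or one of the curves `a³b²`, `a⁴b²`, `a⁶b²`. Then `g` fills the one-holed
torus (it is not `NonFilling`) and its mapping class orbit obeys the square-root law with bounded error. -/
theorem result : ∀ t : ℝ × ℝ × ℝ, t ∈ Fricke →
    ∀ ρ : F2 →* Matrix.SpecialLinearGroup (Fin 2) ℝ,
      tr (ρ ga) = t.1 → tr (ρ gb) = t.2.1 → tr (ρ (ga * gb)) = t.2.2 →
      ∀ g : F2,
        ((∃ n₁ m₁ n₂ m₂ p q : ℕ, 1 ≤ n₁ ∧ 1 ≤ m₁ ∧ 1 ≤ n₂ ∧ 1 ≤ m₂ ∧ n₁ + n₂ = p + 2 ∧ m₁ + m₂ = q + 2 ∧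
            1 ≤ p ∧ 1 ≤ q ∧ (p = q ∨ p = 2 * q ∨ q = 2 * p) ∧
            g = ga ^ n₁ * gb ^ m₁ * (ga ^ n₂)⁻¹ * (gb ^ m₂)⁻¹) ∨
          g = ga ^ 3 * gb ^ 2 ∨ g = ga ^ 4 * gb ^ 2 ∨ g = ga ^ 6 * gb ^ 2) →
        ¬ NonFilling g ∧ SqrtLaw ρ g := by
  intro t ht ρ ha hb hab g hg
  have hA : Adm (trTri ρ (ga, gb)) := AM.FX_adm ρ t ht ha hb hab
  rcases hg with ⟨n₁, m₁, n₂, m₂, p, q, hn1, hm1, hn2, hm2, hp, hq, hp1, hq1, h, rfl⟩ | rfl | rfl | rfl
  · exact AM.w4_law ρ hA n₁ m₁ n₂ m₂ hn1 hm1 hn2 hm2 p q hp hq hp1 hq1 h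
  · exact AM.a3b2_law ρ hA
  · exact AM.a4b2_law ρ hA
  · exact AM.a6b2_law ρ hA

end Pool.Agent.Results.MP_d52931_gt.FillingFamilies
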