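import Mathlib
import Pool.Agent.helper72.TorusDefs
import Pool.Agent.helper68.AM.Final

/-!
The square-root law for the `k`-th geodesic length in the mapping class orbit of a curve on the
one-holed torus holds for EVERY hyperbolic metric and every curve that does not fill.

Sketch of the proof. For a node `(V, V')` of the Farey tree with lengths `l1`, `l2` the points of the
cone are counted by `r² / (2 l1 l2)` minus a sawtooth sum of slope `l2 / l1`. The number of primitive
vectors is `Σ_d μ(d) H(R / d)`. For `R / d` of size `2^j` the cones of the nodes of depth `C j` are used.
Nodes where `l2 / l1` has a convergent with denominator `s > j⁴` contribute little. For the other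
(resonant) nodes the one-sided derivatives of the length function in a fixed rational direction are
monotone along the tree with jumps at least `exp(-length)`, so that the resonant nodes have total
weight `Σ 1 / (l2 s) = O(1 / j)`; a saving `j^(-1/5)` for them comes from the Möbius function against the
sawtooth (Ramaré's identity, Cauchy-Schwarz, Kusmin-Landau, a sieve bound). The sum over `j` of
`R j^(-6/5)` converges, and the blocks with `d ≤ R^(15/16)` are treated without cancellation.
-/

set_option autoImplicit false

namespace Pool.Agent.Results.MP_d52931_gt.NonFillingEveryMetric

open Pool.Agent.helper72.Sq

/-- For every point of Fricke space (a triple of traces `(tr ρ(a), tr ρ(b), tr ρ(ab))` of a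
hyperbolic metric on the one-holed torus with geodesic boundary), for the holonomy `ρ` of that
metric, and for every closed curve that does not fill the torus and is not a power of the boundary,
the lengths in the mapping class orbit obey the square-root law with bounded error. -/
theorem result : ∀ t : ℝ × ℝ × ℝ, t ∈ Fricke →
    ∀ ρ : F2 →* Matrix.SpecialLinearGroup (Fin 2) ℝ,
      tr (ρ ga) = t.1 → tr (ρ gb) = t.2.1 → tr (ρ (ga * gb)) = t.2.2 →
      ∀ g : F2, NonFilling g → ¬ Peripheral g → SqrtLaw ρ g :=
  AM.nonfilling_law AM.tot

end Pool.Agent.Results.MP_d52931_gt.NonFillingEveryMetric
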