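import Mathlib
import Pool.Agent.helper72.TorusDefs
import Pool.Agent.helper68.SF.All

/-!
The square-root law FAILS: there are a hyperbolic metric on the one-holed torus and a curve, namely `a⁴ b³`, such
that for all real `u`, `v` the sequence `u √k + v - L_k` is unbounded, where `L_k` is the length of the `k`-th
geodesic in the mapping class orbit (mapping classes preserve the orientation: the group generated by
the two Dehn twists).

Sketch of the proof.

1. Topology. Up to bounded errors the length of the image of `a⁴ b³` is the sum of the lengths of the images
of `a³ b` and `a b²`. Counting over the nodes of the Farey tree, the counting functions of `a⁴ b³` and of `a⁴ b⁻³`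
differ by a constant multiple of `S(R) + O(R)`, `S(R) = Σ ψ(v) 1[ℓ(v) ≤ R]`, the sum over the simple curves `v` of length
at most `R` with the weights `ψ = 1` on `(1/5, 2/5)`, `-1` on `(3/5, 4/5)`, evaluated at the slope data of `v` (last four
letters of the path in the Farey tree). If both curves satisfy the law then `S(R) = c R² + O(R)`.

2. The wave. For a profile `g ∈ C_c^∞ (1, 3)` an explicit locally finite sum `w (s, z)` over primitive vectors
is defined on the upper half plane; it is smooth, odd under `z ↦ - conj z`, invariant under `SL₂(ℤ)`, and satisfies
`w_ss = 4 y² Δ w + w`; the smoothed sums `S` are integrals of `∂_x w` along paths `(s, i y)`.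

3. Energy. `w` vanishes on the boundary of half of the fundamental domain, the energy is conserved and
positive, so `w` is bounded for all times and comes back (compactness and pigeonhole), uniformly.

4. Hence the cone sums `j (l, l')` satisfy an exact three-term relation, and for a metric satisfying the law the
wave sum of every profile is bounded by a constant times the mass of the profile.

5. Sums of `K` packets at the scales `2^{-k}`, `k ≤ K`, have bounded mass, but for the metric with traces
`2 cosh (Λ/2), 2 cosh (3Λ/4), 2 cosh (17Λ/20)`, `Λ` large, their wave sum at `R = Λ` grows like a nonzero constant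
times `K`: each packet sees the logarithmic singularity of the wave at the time when the ball of radius `R` reaches
the shortest simple curve. So the law fails for this metric or its mirror image.
-/

set_option autoImplicit false

namespace Pool.Agent.Results.MP_d52931_gt.SquareRootLawFails

open Pool.Agent.helper72.Sq

/-- There are a point `t` of Fricke space and the holonomy `ρ` of the corresponding hyperbolic metric such that
the curve `a⁴ b³`, which is not a proper power, has an infinite orbit which can be listed in non-decreasing order
of length, and for every such list and all real `u`, `v` the sequence `u √k + v - L_k` is unbounded. -/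
theorem result : ∃ (t : ℝ × ℝ × ℝ) (ρ : F2 →* Matrix.SpecialLinearGroup (Fin 2) ℝ),
    t ∈ Fricke ∧ tr (ρ ga) = t.1 ∧ tr (ρ gb) = t.2.1 ∧ tr (ρ (ga * gb)) = t.2.2 ∧
    (∀ (h : F2) (n : ℤ), ga ^ 4 * gb ^ 3 = h ^ n → n = 1 ∨ n = -1) ∧
    (∃ e : ℕ ≃ orb (ga ^ 4 * gb ^ 3), Monotone (fun k => cLen ρ (e k))) ∧
    ∀ e : ℕ ≃ orb (ga ^ 4 * gb ^ 3), Monotone (fun k => cLen ρ (e k)) →
      ∀ u v C : ℝ, ∃ k : ℕ, C < |u * √((k : ℝ) + 1) + v - cLen ρ (e k)| := by
  obtain ⟨t, ρ, h1, h2, h3, h4, h5, h6⟩ := SF.final
  exact ⟨t, ρ, h1, h2, h3, h4, SF.t_INF.2, h5, h6⟩

end Pool.Agent.Results.MP_d52931_gt.SquareRootLawFails
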